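import Pool.Agent.H68.GHY.Targets

/-!
# Board ghy (MP_52e316_nt), row BIS: sharp bounds for the derivatives of the bump functions
-/

set_option autoImplicit false

namespace Pool.Agent.H19.GHY

open MeasureTheory Pool.Agent.H34.GM Pool.Agent.H34.GZ Pool.Agent.H34.GU Pool.Agent.H34.GA
  Pool.Agent.H68.GHY

/-- Cayley's operator and the affine maps `z ↦ c z + (1 - c)` -/
theorem dD_aff {m : ℕ} (Φ : Mat m → ℂ)
    (hΦ : ContDiff ℝ ((⊤ : ℕ∞) : WithTop ℕ∞) (fun z : V m => Φ (mt z))) (c : ℝ) (z : Mat m) :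
    dD (fun z => Φ (c • z + (1 - c) • (1 : Mat m))) z =
      ((c ^ m : ℝ) : ℂ) * dD Φ (c • z + (1 - c) • (1 : Mat m)) := by
  obtain ⟨f, hf⟩ : ∃ f : V m → ℂ, f = fun z => Φ (mt z) := ⟨_, rfl⟩
  obtain ⟨a, ha⟩ : ∃ a : V m, a = fun i j => ((1 - c) • (1 : Mat m)) i j := ⟨_, rfl⟩
  obtain ⟨z', hz'⟩ : ∃ z' : V m, z' = fun i j => z i j := ⟨_, rfl⟩
  let L : V m →L[ℝ] V m := c • ContinuousLinearMap.id ℝ (V m)
  have h1 : (fun w : V m => Φ (c • mt w + (1 - c) • (1 : Mat m))) =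
      (fun u => f (u + a)) ∘ L := by
    funext w
    rw [hf, ha]
    rfl
  have hg : ContDiff ℝ ((⊤ : ℕ∞) : WithTop ℕ∞) (fun u : V m => f (u + a)) := by
    rw [← hf] at hΦ
    exact hΦ.comp (contDiff_id.add contDiff_const)
  have h2 : ∀ v : Fin m → V m, iteratedFDeriv ℝ m
      (fun w : V m => Φ (c • mt w + (1 - c) • (1 : Mat m))) z' v =
      ((c ^ m : ℝ) : ℂ) * iteratedFDeriv ℝ m f (c • z' + a) v := by
    intro v
    rw [h1, L.iteratedFDeriv_comp_right hg z' (by exact_mod_cast le_top)]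
    rw [iteratedFDeriv_comp_add_right]
    have h3 : ((iteratedFDeriv ℝ m f (L z' + a)).compContinuousLinearMap fun _ => L) v =
        iteratedFDeriv ℝ m f (c • z' + a) (fun i => c • v i) := rfl
    rw [h3, ContinuousMultilinearMap.map_smul_univ]
    simp
  unfold dD
  rw [Finset.mul_sum]
  refine Finset.sum_congr rfl fun σ _ => ?_
  have h4 := h2 (fun i => ev i (σ i))
  have h5 : (fun i j => (c • z + (1 - c) • (1 : Mat m)) i j) = c • z' + a := by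
    rw [hz', ha]
    rfl
  rw [hz'] at h4
  rw [h4, ← hf, h5, hz']
  ring

theorem tgs_iter (hTEU : T_TEU) {m : ℕ} (hm : 1 ≤ m) {Φ : Mat m → ℂ} (hΦ : TgS m Φ) (l : ℕ) :
    TgS m (dD^[l] Φ) := by
  induction l with
  | zero => exact hΦ
  | succ l ih =>
    rw [Function.iterate_succ_apply']
    exact (hTEU m hm _ ih).2.2.1

theorem dD_smul {m : ℕ} (G : Mat m → ℂ)
    (hG : ContDiff ℝ ((⊤ : ℕ∞) : WithTop ℕ∞) (fun z : V m => G (mt z))) (k : ℂ) (z : Mat m) :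
    dD (fun w => k * G w) z = k * dD G z := by
  unfold dD
  rw [Finset.mul_sum]
  refine Finset.sum_congr rfl fun σ _ => ?_
  have h5 : iteratedFDeriv ℝ m (fun w : V m => k * G (mt w)) (fun i j => z i j) =
      k • iteratedFDeriv ℝ m (fun w : V m => G (mt w)) (fun i j => z i j) := by
    refine iteratedFDeriv_const_smul_apply (𝕜 := ℝ) (a := k) ?_
    exact (hG.of_le (by exact_mod_cast le_top)).contDiffAt
  have h6 : iteratedFDeriv ℝ m (fun w : V m => k * G (mt w)) (fun i j => z i j)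
      (fun i => ev i (σ i)) = k * iteratedFDeriv ℝ m (fun w : V m => G (mt w))
        (fun i j => z i j) (fun i => ev i (σ i)) := by
    rw [h5]
    rfl
  rw [h6]
  ring

theorem dD_iter (hTEU : T_TEU) {m : ℕ} (hm : 1 ≤ m) {Φ : Mat m → ℂ} (hΦ : TgS m Φ) (c : ℝ)
    (l : ℕ) : dD^[l] (fun z => Φ (c • z + (1 - c) • (1 : Mat m))) =
      fun z => ((c ^ (m * l) : ℝ) : ℂ) * (dD^[l] Φ) (c • z + (1 - c) • (1 : Mat m)) := by
  induction l with
  | zero =>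
    funext z
    simp
  | succ l ih =>
    rw [Function.iterate_succ_apply', ih, Function.iterate_succ_apply']
    have h1 : ContDiff ℝ ((⊤ : ℕ∞) : WithTop ℕ∞) (fun z : V m => (dD^[l] Φ) (mt z)) :=
      (tgs_iter hTEU hm hΦ l).smooth
    obtain ⟨G, hG⟩ : ∃ G : Mat m → ℂ, G = dD^[l] Φ := ⟨_, rfl⟩
    rw [← hG] at h1 ⊢
    obtain ⟨Ψ, hΨ⟩ : ∃ Ψ : Mat m → ℂ, Ψ = fun w => ((c ^ (m * l) : ℝ) : ℂ) * G w :=
      ⟨_, rfl⟩
    have h2 : ContDiff ℝ ((⊤ : ℕ∞) : WithTop ℕ∞) (fun z : V m => Ψ (mt z)) := by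
      rw [hΨ]
      exact contDiff_const.mul h1
    have h3 : (fun z => ((c ^ (m * l) : ℝ) : ℂ) * G (c • z + (1 - c) • (1 : Mat m))) =
        fun z => Ψ (c • z + (1 - c) • (1 : Mat m)) := by
      rw [hΨ]
    rw [h3]
    funext z
    rw [dD_aff Ψ h2, hΨ, dD_smul G h1, ← mul_assoc, ← Complex.ofReal_mul, ← pow_add]
    have h4 : m + m * l = m * (l + 1) := by ring
    rw [h4]

theorem bi_aff (m : ℕ) (χ : ℝ → ℝ) (δ : ℝ) (hδ : 0 < δ) : bi m χ δ =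
    fun z => bi m χ (1 / 2) ((2 * δ)⁻¹ • z + (1 - (2 * δ)⁻¹) • (1 : Mat m)) := by
  funext z
  unfold bi
  have h1 : (2 * δ)⁻¹ • z + (1 - (2 * δ)⁻¹) • (1 : Mat m) - 1 = (2 * δ)⁻¹ • (z - 1) := by
    rw [sub_smul, smul_sub, one_smul]
    abel
  rw [h1]
  have h2 : ∀ i j, (((2 * δ)⁻¹ • (z - 1)) i j) ^ 2 = (2 * δ)⁻¹ ^ 2 * ((z - 1) i j) ^ 2 := by
    intro i j
    rw [Matrix.smul_apply, smul_eq_mul, mul_pow]
  simp only [h2]
  simp only [← Finset.mul_sum]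
  generalize ∑ i, ∑ j, (z - 1) i j ^ 2 = S
  have h3 : (2 * δ)⁻¹ ^ 2 * S / (1 / 2) ^ 2 = S / δ ^ 2 := by
    field_simp
  rw [h3]

theorem pf_BIS (hBID : T_BID) (hTEU : T_TEU) (hBIA : T_BIA) : T_BIS := by
  intro m χ l hm hχ
  obtain ⟨C, A, hC, hb⟩ := hBID m χ l hm hχ
  obtain ⟨C', hC', hbi⟩ := hBIA m χ hm hχ
  refine ⟨C * (1 / 2 : ℝ)⁻¹ ^ A, by positivity, fun δ hδ hδ2 z => ⟨?_, ?_⟩⟩
  · have hT := (hbi (1 / 2) (by norm_num) le_rfl).1
    rw [bi_aff m χ δ hδ, dD_iter hTEU hm hT]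
    rw [norm_mul, Complex.norm_real, Real.norm_eq_abs, abs_of_nonneg (by positivity)]
    have h1 := (hb (1 / 2) (by norm_num) le_rfl
      ((2 * δ)⁻¹ • z + (1 - (2 * δ)⁻¹) • (1 : Mat m))).1
    have h2 : (2 * δ)⁻¹ ^ (m * l) ≤ δ⁻¹ ^ (m * l) := by
      refine pow_le_pow_left₀ (by positivity) ?_ _
      exact inv_anti₀ hδ (by linarith)
    calc _ ≤ δ⁻¹ ^ (m * l) * (C * (1 / 2 : ℝ)⁻¹ ^ A) :=
          mul_le_mul h2 h1 (norm_nonneg _) (by positivity)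
      _ = _ := by ring
  · have h1 : ∀ l : ℕ, ∀ z : Mat m, (dD^[l] (bi m χ δ)) z ≠ 0 → sz (z - 1) ≤ δ := by
      intro l
      induction l with
      | zero => exact fun z hz => (((hbi δ hδ hδ2).2 z).2.2.1 hz).2.2.1
      | succ l ih =>
        intro z hz
        rw [Function.iterate_succ_apply'] at hz
        exact (hTEU m hm _ (tgs_iter hTEU hm (hbi δ hδ hδ2).1 l)).2.2.2.2.2 δ ih z (Or.inl hz)
    exact h1 l z

end Pool.Agent.H19.GHY
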